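import Pool.Agent.helper31.IX.Eng

/-!
# The maximum principle for programs

If the assertions of a program hold on the frontier of a bounded open set, the inputs being analytic
functions of one complex variable, then they hold on the closure, provided the program is guarded:
arguments of `log` have been asserted positive, arguments of `inv` are known to be different from zero.
-/

namespace Pool.Agent.helper63.RG

open Complex Set
open Pool.Agent.helper31.IA (Z get)
open Pool.Agent.helper31.IX (Op Asserts)

/-! ### the maximum principle -/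

section
variable {U : Set ℂ} {f : ℂ → ℂ}

theorem lt_of_frontier (hb : Bornology.IsBounded U) (hne : U.Nonempty) (hf : DiffContOnCl ℂ f U)
    {B : ℝ} (h : ∀ z ∈ frontier U, ‖f z‖ < B) : ∀ z ∈ closure U, ‖f z‖ < B := by
  intro z hz
  obtain ⟨w, hw, hm⟩ := Complex.exists_mem_frontier_isMaxOn_norm hb hne hf
  exact lt_of_le_of_lt (hm hz) (h w hw)

theorem pos_of_frontier (hb : Bornology.IsBounded U) (hne : U.Nonempty) (hf : DiffContOnCl ℂ f U)
    (h : ∀ z ∈ frontier U, 0 < (f z).re) : ∀ z ∈ closure U, 0 < (f z).re := by
  have h1 : DiffContOnCl ℂ (fun z => exp (-(f z))) U := by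
    have := hf.neg
    exact (Complex.differentiable_exp.comp_diffContOnCl this)
  have h2 : ∀ z ∈ frontier U, ‖exp (-(f z))‖ < 1 := by
    intro z hz
    rw [Complex.norm_exp, Real.exp_lt_one_iff, Complex.neg_re]
    linarith [h z hz]
  intro z hz
  have h3 := lt_of_frontier hb hne h1 h2 z hz
  rw [Complex.norm_exp, Real.exp_lt_one_iff, Complex.neg_re] at h3
  linarith

end

/-! ### guards -/

/-- shift of the register numbers -/
def up (l : List ℕ) : List ℕ := l.map Nat.succ

/-- with register `0` if `b` -/
def up0 (b : Bool) (l : List ℕ) : List ℕ := if b then 0 :: up l else up l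

def isIn (i : ℕ) : List ℕ → Bool
  | [] => false
  | a :: t => Nat.beq a i || isIn i t

theorem isIn_mem {i : ℕ} : ∀ {l : List ℕ}, isIn i l = true → i ∈ l := by
  intro l
  induction l with
  | nil => intro h; simp [isIn] at h
  | cons a t ih =>
    intro h
    rw [isIn, Bool.or_eq_true] at h
    rcases h with h | h
    · rw [Nat.eq_of_beq_eq_true h]; exact List.mem_cons_self
    · exact List.mem_cons_of_mem _ (ih h)

/-- nonzero constant -/
def znz (z : Z) : Bool := !(Nat.beq z.a z.b && Nat.beq z.c z.d)

/-- constant with positive real part -/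
def zpos (z : Z) : Bool := Nat.blt z.b z.a

/-- positive real constant -/
def zposr (z : Z) : Bool := Nat.blt z.b z.a && Nat.beq z.c z.d

/-- `P`: registers with positive real part, `N`: registers different from zero -/
def guard : List ℕ → List ℕ → List Op → Bool
  | _, _, [] => true
  | P, N, Op.const z :: t => guard (up0 (zpos z) P) (up0 (znz z) N) t
  | P, N, Op.add i j :: t =>
      let b := isIn i P && isIn j P
      guard (up0 b P) (up0 b N) t
  | P, N, Op.sub _ _ :: t => guard (up P) (up N) t
  | P, N, Op.mul i j :: t => guard (up P) (up0 (isIn i N && isIn j N) N) t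
  | P, N, Op.scale z i :: t =>
      guard (up0 (zposr z && isIn i P) P) (up0 (znz z && isIn i N) N) t
  | P, N, Op.neg i :: t => guard (up P) (up0 (isIn i N) N) t
  | P, N, Op.inv i :: t => isIn i N && guard (up0 (isIn i P) P) (up0 true N) t
  | P, N, Op.exp _ :: t => guard (up P) (up0 true N) t
  | P, N, Op.log i :: t => isIn i P && guard (up P) (up N) t
  | P, N, Op.pos i :: t => guard (i :: P) (i :: N) t
  | P, N, Op.lt _ _ :: t => guard P N t
  | P, N, Op.ball _ _ :: t => guard (up P) (up N) t
  | P, N, Op.rball _ _ :: t => guard (up P) (up N) t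

/-- the registers at `z` -/
def at' (F : List (ℂ → ℂ)) (z : ℂ) : List ℂ := F.map fun f => f z

/-- the invariant -/
structure Inv (U : Set ℂ) (P N : List ℕ) (F : List (ℂ → ℂ)) : Prop where
  d : ∀ f ∈ F, DiffContOnCl ℂ f U
  p : ∀ i ∈ P, ∀ z ∈ closure U, 0 < (get (at' F z) i).re
  n : ∀ i ∈ N, ∀ z ∈ closure U, get (at' F z) i ≠ 0

variable {U : Set ℂ} {P N : List ℕ} {F : List (ℂ → ℂ)}

theorem diff_get : ∀ {F : List (ℂ → ℂ)}, (∀ f ∈ F, DiffContOnCl ℂ f U) → ∀ i,
    DiffContOnCl ℂ (fun z => get (at' F z) i) U := by
  intro F
  induction F with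
  | nil =>
    intro _ i
    have : (fun z : ℂ => get (at' [] z) i) = fun _ => 0 := by
      funext z; cases i <;> rfl
    rw [this]
    exact diffContOnCl_const
  | cons f t ih =>
    intro h i
    cases i with
    | zero => exact h f List.mem_cons_self
    | succ n => exact ih (fun g hg => h g (List.mem_cons_of_mem _ hg)) n

theorem Inv.get (h : Inv U P N F) (i : ℕ) : DiffContOnCl ℂ (fun z => get (at' F z) i) U :=
  diff_get h.d i

/-- a new register -/
theorem Inv.push (h : Inv U P N F) {g : ℂ → ℂ} (hg : DiffContOnCl ℂ g U) {bp bn : Bool}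
    (hp : bp = true → ∀ z ∈ closure U, 0 < (g z).re)
    (hn : bn = true → ∀ z ∈ closure U, g z ≠ 0) :
    Inv U (up0 bp P) (up0 bn N) (g :: F) := by
  have key : ∀ {Q : ℂ → Prop} {b : Bool} {l : List ℕ},
      (∀ i ∈ l, ∀ z ∈ closure U, Q (Pool.Agent.helper31.IA.get (at' F z) i)) →
      (b = true → ∀ z ∈ closure U, Q (g z)) → ∀ i ∈ up0 b l, ∀ z ∈ closure U,
        Q (Pool.Agent.helper31.IA.get (at' (g :: F) z) i) := by
    intro Q b l hl hb i hi z hz
    have h1 : ∀ i ∈ up l, Q (Pool.Agent.helper31.IA.get (at' (g :: F) z) i) := by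
      intro i hi
      obtain ⟨j, hj, rfl⟩ := List.mem_map.1 hi
      exact hl j hj z hz
    cases b with
    | false => exact h1 i hi
    | true =>
      rcases List.mem_cons.1 hi with rfl | hi
      · exact hb rfl z hz
      · exact h1 i hi
  refine ⟨?_, key (Q := fun v => 0 < v.re) h.p hp, key (Q := fun v => v ≠ 0) h.n hn⟩
  intro f hf
  rcases List.mem_cons.1 hf with rfl | hf
  · exact hg
  · exact h.d f hf

theorem Inv.push' (h : Inv U P N F) {g : ℂ → ℂ} (hg : DiffContOnCl ℂ g U) {bn : Bool}
    (hn : bn = true → ∀ z ∈ closure U, g z ≠ 0) : Inv U (up P) (up0 bn N) (g :: F) :=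
  h.push (bp := false) hg (by simp) hn

theorem Inv.push'' (h : Inv U P N F) {g : ℂ → ℂ} (hg : DiffContOnCl ℂ g U) :
    Inv U (up P) (up N) (g :: F) :=
  h.push (bp := false) (bn := false) hg (by simp) (by simp)

theorem znz_ne {z : Z} (h : znz z = true) : z.val ≠ 0 := by
  intro h0
  have h1 := congrArg Complex.re h0
  have h2 := congrArg Complex.im h0
  simp only [Z.val, Complex.add_re, Complex.ofReal_re, Complex.mul_re, Complex.I_re, mul_zero,
    Complex.ofReal_im, Complex.I_im, mul_one, sub_self, add_zero, Complex.zero_re, Complex.add_im,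
    Complex.mul_im, zero_add, Complex.zero_im] at h1 h2
  have h3 : (z.a : ℝ) = z.b := by
    have : ((z.a : ℝ) - z.b) / 2 ^ 40 = 0 := h1
    rw [div_eq_zero_iff] at this
    rcases this with h | h
    · linarith
    · norm_num at h
  have h4 : (z.c : ℝ) = z.d := by
    have : ((z.c : ℝ) - z.d) / 2 ^ 40 = 0 := h2
    rw [div_eq_zero_iff] at this
    rcases this with h | h
    · linarith
    · norm_num at h
  have h5 : z.a = z.b := by exact_mod_cast h3
  have h6 : z.c = z.d := by exact_mod_cast h4
  rw [znz, h5, h6] at h
  simp at h

theorem zpos_re {z : Z} (h : zpos z = true) : 0 < z.val.re := by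
  have h1 : (z.b : ℝ) < z.a := by exact_mod_cast Nat.le_of_ble_eq_true h
  simp only [Z.val, Complex.add_re, Complex.ofReal_re, Complex.mul_re, Complex.I_re, mul_zero,
    Complex.ofReal_im, Complex.I_im, mul_one, sub_self, add_zero]
  exact div_pos (by linarith) (by positivity)

theorem zposr_mul {z : Z} (h : zposr z = true) {w : ℂ} (hw : 0 < w.re) : 0 < (z.val * w).re := by
  rw [zposr, Bool.and_eq_true] at h
  have h1 : (z.b : ℝ) < z.a := by exact_mod_cast Nat.le_of_ble_eq_true h.1
  have h2 := Nat.eq_of_beq_eq_true h.2
  have h3 : z.val = ((((z.a : ℝ) - z.b) / 2 ^ 40 : ℝ) : ℂ) := by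
    rw [Z.val, h2, sub_self, zero_div, Complex.ofReal_zero, zero_mul, add_zero]
  rw [h3, Complex.re_ofReal_mul]
  exact mul_pos (div_pos (by linarith) (by positivity)) hw

/-- **The maximum principle for programs.** -/
theorem maxP (hb : Bornology.IsBounded U) (hne : U.Nonempty) :
    ∀ (ops : List Op) (P N : List ℕ) (F : List (ℂ → ℂ)), Inv U P N F → guard P N ops = true →
      (∀ z ∈ frontier U, Asserts ops (at' F z)) → ∀ z ∈ closure U, Asserts ops (at' F z) := by
  have hsub : ∀ {z : ℂ}, z ∈ U → z ∈ closure U := fun h => subset_closure h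
  have hfr : ∀ {z : ℂ}, z ∈ frontier U → z ∈ closure U := fun h => frontier_subset_closure h
  intro ops
  induction ops with
  | nil => intro P N F _ _ _ z _; trivial
  | cons op t ih =>
    intro P N F hI hg h z hz
    cases op with
    | const c =>
      intro v hv
      subst hv
      exact ih _ _ _ (hI.push (g := fun _ => c.val) diffContOnCl_const
        (fun hb _ _ => zpos_re hb) (fun hb _ _ => znz_ne hb)) hg (fun w hw => h w hw _ rfl) z hz
    | add i j =>
      intro v hv
      subst hv
      refine ih _ _ _ (hI.push (g := fun w => get (at' F w) i + get (at' F w) j)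
        ((hI.get i).add (hI.get j)) ?_ ?_) hg (fun w hw => h w hw _ rfl) z hz
      · intro hb w hw
        rw [Bool.and_eq_true] at hb
        have h1 := hI.p i (isIn_mem hb.1) w hw
        have h2 := hI.p j (isIn_mem hb.2) w hw
        rw [Complex.add_re]
        exact add_pos h1 h2
      · intro hb w hw h0
        rw [Bool.and_eq_true] at hb
        have h1 := hI.p i (isIn_mem hb.1) w hw
        have h2 := hI.p j (isIn_mem hb.2) w hw
        have h3 := congrArg Complex.re h0
        rw [Complex.add_re, Complex.zero_re] at h3
        linarith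
    | sub i j =>
      intro v hv
      subst hv
      exact ih _ _ _ (hI.push'' (g := fun w => get (at' F w) i - get (at' F w) j)
        ((hI.get i).sub (hI.get j))) hg (fun w hw => h w hw _ rfl) z hz
    | mul i j =>
      intro v hv
      subst hv
      refine ih _ _ _ (hI.push' (g := fun w => get (at' F w) i * get (at' F w) j)
        ((hI.get i).smul (hI.get j)) ?_) hg (fun w hw => h w hw _ rfl) z hz
      intro hb w hw
      rw [Bool.and_eq_true] at hb
      exact mul_ne_zero (hI.n i (isIn_mem hb.1) w hw) (hI.n j (isIn_mem hb.2) w hw)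
    | scale c i =>
      intro v hv
      subst hv
      refine ih _ _ _ (hI.push (g := fun w => c.val * get (at' F w) i)
        ((hI.get i).const_smul c.val) ?_ ?_) hg (fun w hw => h w hw _ rfl) z hz
      · intro hb w hw
        rw [Bool.and_eq_true] at hb
        exact zposr_mul hb.1 (hI.p i (isIn_mem hb.2) w hw)
      · intro hb w hw
        rw [Bool.and_eq_true] at hb
        exact mul_ne_zero (znz_ne hb.1) (hI.n i (isIn_mem hb.2) w hw)
    | neg i =>
      intro v hv
      subst hv
      refine ih _ _ _ (hI.push' (g := fun w => -get (at' F w) i)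
        (hI.get i).neg ?_) hg (fun w hw => h w hw _ rfl) z hz
      intro hb w hw
      exact neg_ne_zero.2 (hI.n i (isIn_mem hb) w hw)
    | inv i =>
      have hg' := (Bool.and_eq_true _ _).mp hg
      have hnz := hI.n i (isIn_mem hg'.1)
      refine ⟨hnz z hz, ?_⟩
      intro v hv
      subst hv
      refine ih _ _ _ (hI.push (g := fun w => (get (at' F w) i)⁻¹)
        ((hI.get i).inv fun w hw => hnz w hw) ?_ ?_) hg'.2 (fun w hw => (h w hw).2 _ rfl) z hz
      · intro hb w hw
        have h1 := hI.p i (isIn_mem hb) w hw
        rw [Complex.inv_re]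
        exact div_pos h1 (Complex.normSq_pos.2 (hnz w hw))
      · intro _ w hw
        exact inv_ne_zero (hnz w hw)
    | exp i =>
      intro v hv
      subst hv
      exact ih _ _ _ (hI.push' (g := fun w => Complex.exp (get (at' F w) i))
        (Complex.differentiable_exp.comp_diffContOnCl (hI.get i))
        (fun _ _ _ => Complex.exp_ne_zero _)) hg (fun w hw => h w hw _ rfl) z hz
    | log i =>
      have hg' := (Bool.and_eq_true _ _).mp hg
      have hps := hI.p i (isIn_mem hg'.1)
      have hsl : ∀ w ∈ closure U, get (at' F w) i ∈ slitPlane := fun w hw =>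
        Complex.mem_slitPlane_iff.2 (Or.inl (hps w hw))
      refine ⟨hsl z hz, ?_⟩
      intro v hv
      subst hv
      refine ih _ _ _ (hI.push'' (g := fun w => Complex.log (get (at' F w) i)) ?_) hg'.2
        (fun w hw => (h w hw).2 _ rfl) z hz
      exact ⟨(hI.get i).differentiableOn.clog fun w hw => hsl w (hsub hw),
        (hI.get i).continuousOn.clog fun w hw => hsl w hw⟩
    | pos i =>
      have h1 := pos_of_frontier hb hne (hI.get i) fun w hw => (h w hw).1
      refine ⟨h1 z hz, ?_⟩
      refine ih (i :: P) (i :: N) F ⟨hI.d, ?_, ?_⟩ hg (fun w hw => (h w hw).2) z hz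
      · intro j hj w hw
        rcases List.mem_cons.1 hj with rfl | hj
        · exact h1 w hw
        · exact hI.p j hj w hw
      · intro j hj w hw
        rcases List.mem_cons.1 hj with rfl | hj
        · intro h0
          have h2 := h1 w hw
          simp only [h0, Complex.zero_re, lt_irrefl] at h2
        · exact hI.n j hj w hw
    | lt i B =>
      exact ⟨lt_of_frontier hb hne (hI.get i) (fun w hw => (h w hw).1) z hz,
        ih P N F hI hg (fun w hw => (h w hw).2) z hz⟩
    | ball i B =>
      intro v hv
      have h1 := ih _ _ _ (hI.push'' (g := fun w => get (at' F w) i + (v - get (at' F z) i))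
        ((hI.get i).add diffContOnCl_const)) hg (fun w hw => h w hw _ (by
          rw [add_sub_cancel_left]; exact hv)) z hz
      have h2 : (at' ((fun w => get (at' F w) i + (v - get (at' F z) i)) :: F) z) = v :: at' F z := by
        show (get (at' F z) i + (v - get (at' F z) i)) :: at' F z = _
        rw [add_sub_cancel]
      rwa [h2] at h1
    | rball i j =>
      intro v hv
      obtain ⟨u, hu, hvu⟩ : ∃ u : ℂ, ‖u‖ ≤ 1 ∧ v = get (at' F z) i + get (at' F z) j * u := by
        rcases eq_or_ne (get (at' F z) j) 0 with h0 | h0
        · refine ⟨0, by simp, ?_⟩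
          rw [h0, norm_zero] at hv
          have := norm_le_zero_iff.1 hv
          rw [mul_zero, add_zero]
          exact sub_eq_zero.1 this
        · refine ⟨(v - get (at' F z) i) / get (at' F z) j, ?_, ?_⟩
          · rw [norm_div, div_le_one (norm_pos_iff.2 h0)]
            exact hv
          · rw [mul_div_cancel₀ _ h0]; ring
      have h1 := ih _ _ _ (hI.push'' (g := fun w => get (at' F w) i + get (at' F w) j * u)
        ((hI.get i).add ((hI.get j).smul diffContOnCl_const))) hg (fun w hw => h w hw _ (by
          rw [add_sub_cancel_left, norm_mul]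
          exact mul_le_of_le_one_right (norm_nonneg _) hu)) z hz
      have h2 : (at' ((fun w => get (at' F w) i + get (at' F w) j * u) :: F) z) = v :: at' F z := by
        show (get (at' F z) i + get (at' F z) j * u) :: at' F z = _
        rw [hvu]
      rwa [h2] at h1

/-! ### prefix and renaming -/

/-- the registers after a program without balls -/
noncomputable def evalP : List Op → List ℂ → List ℂ
  | [], m => m
  | Op.const z :: t, m => evalP t (z.val :: m)
  | Op.add i j :: t, m => evalP t ((get m i + get m j) :: m)
  | Op.sub i j :: t, m => evalP t ((get m i - get m j) :: m)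
  | Op.mul i j :: t, m => evalP t ((get m i * get m j) :: m)
  | Op.scale z i :: t, m => evalP t ((z.val * get m i) :: m)
  | Op.neg i :: t, m => evalP t ((-get m i) :: m)
  | Op.inv i :: t, m => evalP t ((get m i)⁻¹ :: m)
  | Op.exp i :: t, m => evalP t (Complex.exp (get m i) :: m)
  | Op.log i :: t, m => evalP t (Complex.log (get m i) :: m)
  | Op.pos _ :: t, m => evalP t m
  | Op.lt _ _ :: t, m => evalP t m
  | Op.ball i _ :: t, m => evalP t (get m i :: m)
  | Op.rball i _ :: t, m => evalP t (get m i :: m)

theorem asserts_append (B : List Op) : ∀ (A : List Op) (m : List ℂ), Asserts (A ++ B) m →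
    Asserts B (evalP A m) := by
  intro A
  induction A with
  | nil => intro m h; exact h
  | cons op t ih =>
    intro m h
    cases op with
    | const z => exact ih _ (h _ rfl)
    | add i j => exact ih _ (h _ rfl)
    | sub i j => exact ih _ (h _ rfl)
    | mul i j => exact ih _ (h _ rfl)
    | scale z i => exact ih _ (h _ rfl)
    | neg i => exact ih _ (h _ rfl)
    | inv i => exact ih _ (h.2 _ rfl)
    | exp i => exact ih _ (h _ rfl)
    | log i => exact ih _ (h.2 _ rfl)
    | pos i => exact ih _ h.2
    | lt i B => exact ih _ h.2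
    | ball i B => exact ih _ (h _ (by rw [sub_self, norm_zero]; positivity))
    | rball i j => exact ih _ (h _ (by rw [sub_self, norm_zero]; exact norm_nonneg _))

/-- entry of a list of numbers -/
def nthN : List ℕ → ℕ → ℕ → ℕ
  | [], _, D => D
  | x :: _, 0, _ => x
  | _ :: t, n + 1, D => nthN t n D

/-- new number of register `j`, `t` registers having been written -/
def rn (σ : List ℕ) (D t j : ℕ) : ℕ := if Nat.blt j t then j else t + nthN σ (j - t) D

/-- the inputs of a program renamed; `t` registers have been written -/
def reloc (σ : List ℕ) (D : ℕ) : ℕ → List Op → List Op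
  | _, [] => []
  | t, Op.const z :: r => Op.const z :: reloc σ D (t + 1) r
  | t, Op.add i j :: r => Op.add (rn σ D t i) (rn σ D t j) :: reloc σ D (t + 1) r
  | t, Op.sub i j :: r => Op.sub (rn σ D t i) (rn σ D t j) :: reloc σ D (t + 1) r
  | t, Op.mul i j :: r => Op.mul (rn σ D t i) (rn σ D t j) :: reloc σ D (t + 1) r
  | t, Op.scale z i :: r => Op.scale z (rn σ D t i) :: reloc σ D (t + 1) r
  | t, Op.neg i :: r => Op.neg (rn σ D t i) :: reloc σ D (t + 1) r
  | t, Op.inv i :: r => Op.inv (rn σ D t i) :: reloc σ D (t + 1) r
  | t, Op.exp i :: r => Op.exp (rn σ D t i) :: reloc σ D (t + 1) r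
  | t, Op.log i :: r => Op.log (rn σ D t i) :: reloc σ D (t + 1) r
  | t, Op.pos i :: r => Op.pos (rn σ D t i) :: reloc σ D t r
  | t, Op.lt i B :: r => Op.lt (rn σ D t i) B :: reloc σ D t r
  | t, Op.ball i B :: r => Op.ball (rn σ D t i) B :: reloc σ D (t + 1) r
  | t, Op.rball i j :: r => Op.rball (rn σ D t i) (rn σ D t j) :: reloc σ D (t + 1) r

theorem get_append_lt : ∀ {T m : List ℂ} {j : ℕ}, j < T.length → get (T ++ m) j = get T j := by
  intro T
  induction T with
  | nil => intro m j h; simp at h
  | cons x t ih =>
    intro m j h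
    cases j with
    | zero => rfl
    | succ n =>
      show get (t ++ m) n = get t n
      exact ih (by simpa using h)

theorem get_append_ge : ∀ {T m : List ℂ} {j : ℕ}, get (T ++ m) (T.length + j) = get m j := by
  intro T
  induction T with
  | nil => intro m j; simp
  | cons x t ih =>
    intro m j
    have : (x :: t).length + j = (t.length + j) + 1 := by
      simp only [List.length_cons]; omega
    rw [this]
    show get (t ++ m) (t.length + j) = get m j
    exact ih

theorem get_big : ∀ {m : List ℂ} {j : ℕ}, m.length ≤ j → get m j = 0 := by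
  intro m
  induction m with
  | nil => intro j _; cases j <;> rfl
  | cons x t ih =>
    intro j h
    cases j with
    | zero => simp at h
    | succ n => exact ih (by simpa using h)

theorem get_map_nth : ∀ {σ : List ℕ} {D : ℕ} {m : List ℂ} {j : ℕ}, m.length ≤ D →
    get (σ.map (get m)) j = get m (nthN σ j D) := by
  intro σ
  induction σ with
  | nil =>
    intro D m j h
    rw [nthN, get_big h]
    cases j <;> rfl
  | cons x t ih =>
    intro D m j h
    cases j with
    | zero => rfl
    | succ n => exact ih h

theorem get_rn {σ : List ℕ} {D : ℕ} {T m : List ℂ} {j : ℕ} (hD : m.length ≤ D) :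
    get (T ++ m) (rn σ D T.length j) = get (T ++ σ.map (get m)) j := by
  unfold rn
  by_cases h : j < T.length
  · have h1 : Nat.blt j T.length = true := Nat.ble_eq_true_of_le h
    rw [if_pos h1, get_append_lt h, get_append_lt h]
  · have h1 : ¬ (Nat.blt j T.length = true) := fun h2 => h (Nat.le_of_ble_eq_true h2)
    rw [if_neg h1, get_append_ge]
    obtain ⟨k, hk⟩ : ∃ k, j = T.length + k := ⟨j - T.length, by omega⟩
    rw [hk, get_append_ge, get_map_nth hD]
    congr 2
    omega

theorem asserts_reloc {σ : List ℕ} {D : ℕ} {m : List ℂ} (hD : m.length ≤ D) :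
    ∀ (ops : List Op) (T : List ℂ), Asserts (reloc σ D T.length ops) (T ++ m) →
      Asserts ops (T ++ σ.map (get m)) := by
  intro ops
  induction ops with
  | nil => intro T _; trivial
  | cons op t ih =>
    intro T h
    have key : ∀ v : ℂ, Asserts (reloc σ D (T.length + 1) t) (v :: (T ++ m)) →
        Asserts t (v :: (T ++ σ.map (get m))) := fun v hv => ih (v :: T) hv
    cases op with
    | const z => exact fun v hv => key v (h v hv)
    | add i j =>
      intro v hv
      rw [← get_rn hD, ← get_rn hD] at hv
      exact key v (h v hv)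
    | sub i j =>
      intro v hv
      rw [← get_rn hD, ← get_rn hD] at hv
      exact key v (h v hv)
    | mul i j =>
      intro v hv
      rw [← get_rn hD, ← get_rn hD] at hv
      exact key v (h v hv)
    | scale z i =>
      intro v hv
      rw [← get_rn hD] at hv
      exact key v (h v hv)
    | neg i =>
      intro v hv
      rw [← get_rn hD] at hv
      exact key v (h v hv)
    | inv i =>
      refine ⟨by rw [← get_rn hD]; exact h.1, ?_⟩
      intro v hv
      rw [← get_rn hD] at hv
      exact key v (h.2 v hv)
    | exp i =>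
      intro v hv
      rw [← get_rn hD] at hv
      exact key v (h v hv)
    | log i =>
      refine ⟨by rw [← get_rn hD]; exact h.1, ?_⟩
      intro v hv
      rw [← get_rn hD] at hv
      exact key v (h.2 v hv)
    | pos i => exact ⟨by rw [← get_rn hD]; exact h.1, ih T h.2⟩
    | lt i B => exact ⟨by rw [← get_rn hD]; exact h.1, ih T h.2⟩
    | ball i B =>
      intro v hv
      rw [← get_rn hD] at hv
      exact key v (h v hv)
    | rball i j =>
      intro v hv
      rw [← get_rn hD, ← get_rn (j := j) hD] at hv
      exact key v (h v hv)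

/-- **Prefix and renamed program.** -/
theorem asserts_comp {P1 P2 : List Op} {σ : List ℕ} {D : ℕ} {m : List ℂ}
    (hD : (evalP P1 m).length ≤ D) (h : Asserts (P1 ++ reloc σ D 0 P2) m) :
    Asserts P2 (σ.map (get (evalP P1 m))) :=
  asserts_reloc hD P2 [] (asserts_append _ P1 m h)

/-! ### conjugation -/

/-- the constants are real -/
def realP : List Op → Bool
  | [] => true
  | Op.const z :: t => Nat.beq z.c z.d && realP t
  | Op.scale z _ :: t => Nat.beq z.c z.d && realP t
  | Op.add _ _ :: t | Op.sub _ _ :: t | Op.mul _ _ :: t | Op.neg _ :: t | Op.inv _ :: t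
  | Op.exp _ :: t | Op.log _ :: t | Op.pos _ :: t | Op.lt _ _ :: t | Op.ball _ _ :: t
  | Op.rball _ _ :: t => realP t

open ComplexConjugate

theorem get_conj : ∀ {m : List ℂ} {j : ℕ}, get (m.map conj) j = conj (get m j) := by
  intro m
  induction m with
  | nil => intro j; cases j <;> simp [Pool.Agent.helper31.IA.get]
  | cons x t ih =>
    intro j
    cases j with
    | zero => rfl
    | succ n => exact ih

theorem conj_val {z : Z} (h : Nat.beq z.c z.d = true) : conj z.val = z.val := by
  rw [Z.val, Nat.eq_of_beq_eq_true h, sub_self, zero_div, Complex.ofReal_zero, zero_mul, add_zero,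
    Complex.conj_ofReal]

theorem slit_conj {z : ℂ} (h : z ∈ slitPlane) : conj z ∈ slitPlane := by
  rw [Complex.mem_slitPlane_iff] at h ⊢
  simpa using h

theorem log_conj' {z : ℂ} (h : z ∈ slitPlane) : log (conj z) = conj (log z) :=
  Complex.log_conj z (Complex.slitPlane_arg_ne_pi h)

/-- **Conjugation.** -/
theorem asserts_conj : ∀ (ops : List Op) (m : List ℂ), realP ops = true →
    Asserts ops (m.map conj) → Asserts ops m := by
  intro ops
  induction ops with
  | nil => intro m _ _; trivial
  | cons op t ih =>
    intro m hr h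
    have key : ∀ v : ℂ, realP t = true → Asserts t (conj v :: m.map conj) → Asserts t (v :: m) :=
      fun v h1 h2 => ih (v :: m) h1 h2
    cases op with
    | const z =>
      intro v hv
      have hr' := (Bool.and_eq_true _ _).mp hr
      exact key v hr'.2 (h _ (by rw [hv, conj_val hr'.1]))
    | add i j =>
      intro v hv
      exact key v hr (h _ (by rw [hv, get_conj, get_conj, map_add]))
    | sub i j =>
      intro v hv
      exact key v hr (h _ (by rw [hv, get_conj, get_conj, map_sub]))
    | mul i j =>
      intro v hv
      exact key v hr (h _ (by rw [hv, get_conj, get_conj, map_mul]))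
    | scale z i =>
      intro v hv
      have hr' := (Bool.and_eq_true _ _).mp hr
      exact key v hr'.2 (h _ (by rw [hv, get_conj, map_mul, conj_val hr'.1]))
    | neg i =>
      intro v hv
      exact key v hr (h _ (by rw [hv, get_conj, map_neg]))
    | inv i =>
      refine ⟨fun h0 => h.1 (by rw [get_conj, h0, map_zero]), ?_⟩
      intro v hv
      exact key v hr (h.2 _ (by rw [hv, get_conj, map_inv₀]))
    | exp i =>
      intro v hv
      exact key v hr (h _ (by rw [hv, get_conj, ← Complex.exp_conj]))
    | log i =>
      have h1 : get m i ∈ slitPlane := by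
        have := slit_conj h.1
        rwa [get_conj, Complex.conj_conj] at this
      refine ⟨h1, ?_⟩
      intro v hv
      exact key v hr (h.2 _ (by rw [hv, get_conj, log_conj' h1]))
    | pos i =>
      refine ⟨?_, ih m hr h.2⟩
      have := h.1
      rwa [get_conj, Complex.conj_re] at this
    | lt i B =>
      refine ⟨?_, ih m hr h.2⟩
      have := h.1
      rwa [get_conj, Complex.norm_conj] at this
    | ball i B =>
      intro v hv
      refine key v hr (h _ ?_)
      rw [get_conj, ← map_sub, Complex.norm_conj]
      exact hv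
    | rball i j =>
      intro v hv
      refine key v hr (h _ ?_)
      rw [get_conj, get_conj, ← map_sub, Complex.norm_conj, Complex.norm_conj]
      exact hv

end Pool.Agent.helper63.RG
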