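import Pool.Agent.helper12.RS.OmChain

/-!
# `NodesOK` from fixed state sets in the `om` plane

`W n`: a set which contains the values of `om` at the link after the near node number `n`.
-/

namespace Pool.Agent.helper63.RG

open Complex ComplexConjugate Set Filter Topology
open Pool.Agent.helper31.EQ.Y Pool.Agent.helper31.EQ.R
open Pool.Agent.helper12.RP Pool.Agent.helper12.FF Pool.Agent.helper12.RS

variable {e κ θ : ℝ}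

/-- the state sets -/
def BW (e κ : ℝ) (W : ℕ → Set ℂ) (n : ℕ) : Set ℂ :=
  {y | ∃ Q : ℂ, Real.cosh κ < Q.re ∧ y = (e : ℂ) * (1 - (Q ^ 2)⁻¹) ∧ om κ Q ∈ W n}

/-- Conditions at the last near node; `W` the set of the next states. -/
structure YL' (e κ θ A x0 B1 : ℝ) (W : Set ℂ) (l r M : ℂ) (S : ℂ → ℂ) : Prop where
  nc : ∀ x : ℂ, ‖x‖ ≤ 1 → NC l r M (S x) x
  ne : ∀ x : ℂ, ‖x‖ ≤ 1 → S x ^ ((1 / 2 : ℝ) : ℂ) ≠ (Real.exp (-κ) : ℂ)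
  mem : ∀ x : ℂ, ‖x‖ ≤ 1 → om κ (S x ^ ((1 / 2 : ℝ) : ℂ)) ∈ W
  close : ∀ x : ℂ, ‖x‖ ≤ 1 → ∀ Q' Q1 Q2 q2 q3 : ℂ, Q' = S x ^ ((1 / 2 : ℝ) : ℂ) →
    Q1 = 2 * (Real.cosh κ : ℂ) - Q'⁻¹ → Q2 = 2 * (Real.cosh κ : ℂ) - Q1⁻¹ →
    q2 = Q1 ^ (-(e : ℂ)) → q3 = Q2 ^ (-(e : ℂ)) →
    ‖q3‖ ≤ B1 * ‖1 + q3‖ ∧ 1 + q3 ≠ 0 ∧
    ∀ f2 χ : ℂ, ‖f2 - 1 / (1 + q3)‖ ≤
      (1 + 1 / (2 * (x0 + 2))) / (1 - B1 / (x0 + 2)) *
      (e * ‖(Q2 - (Real.cosh κ : ℂ)) ^ 2 - (Real.sinh κ : ℂ) ^ 2‖) * ‖q3‖ / ‖1 + q3‖ ^ 3 →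
      ‖χ‖ ≤ A * Real.sinh κ * Real.exp (-(κ * x0)) / Real.sinh (κ * (x0 + 1)) *
        ‖(Q' - (Real.exp (-κ) : ℂ)) / Q'‖ →
      ‖x - M * (x - (1 - exp (l + lc l - (e : ℂ) / 2 * log (S x)) *
        (1 - q2 * f2 * (1 - χ))) / r)‖ < θ

/-- from the relative displacement bound -/
theorem yR_to {h δ : ℝ} {l r M : ℂ} {S : ℂ → ℂ} {Q : ℂ} {l' r' : ℂ → ℂ}
    (H : YR e κ h θ δ l r M S Q l' r') {W : Set ℂ}
    (hW : ∀ w : ℂ, ‖w - (kk κ : ℂ) * om κ Q‖ ≤ κ * δ * ‖(h : ℂ) - (kk κ : ℂ) * om κ Q‖ → w ∈ W) :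
    YF e κ θ W l r M S l' r' :=
  ⟨H.nc, H.ne, fun x hx => hW _ (H.disp x hx), H.close⟩

theorem yL_to {h δ A x0 B1 : ℝ} {l r M : ℂ} {S : ℂ → ℂ} {Q : ℂ}
    (H : YL e κ h θ δ A x0 B1 l r M S Q) {W : Set ℂ}
    (hW : ∀ w : ℂ, ‖w - (kk κ : ℂ) * om κ Q‖ ≤ κ * δ * ‖(h : ℂ) - (kk κ : ℂ) * om κ Q‖ → w ∈ W) :
    YL' e κ θ A x0 B1 W l r M S :=
  ⟨H.nc, H.ne, fun x hx => hW _ (H.disp x hx), H.close⟩

/-- centred discs: the step of the relative displacement -/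
theorem step_centred {h δ ρ ρ' : ℝ} (hκ : 0 < κ) (hδ : 0 ≤ δ) (hh : 0 ≤ h)
    (hs : kk κ * ρ + κ * δ * (h + kk κ * ρ) ≤ ρ') {w w' : ℂ} (hw : ‖w‖ ≤ ρ)
    (hd : ‖w' - (kk κ : ℂ) * w‖ ≤ κ * δ * ‖(h : ℂ) - (kk κ : ℂ) * w‖) : ‖w'‖ ≤ ρ' := by
  have hk := kk_pos κ
  have h1 : ‖(kk κ : ℂ) * w‖ ≤ kk κ * ρ := by
    rw [norm_mul, Complex.norm_real, Real.norm_of_nonneg hk.le]
    exact mul_le_mul_of_nonneg_left hw hk.le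
  have h2 : ‖(h : ℂ) - (kk κ : ℂ) * w‖ ≤ h + kk κ * ρ := by
    refine (norm_sub_le _ _).trans (add_le_add ?_ h1)
    rw [Complex.norm_real, Real.norm_of_nonneg hh]
  have h3 : ‖w'‖ ≤ ‖w' - (kk κ : ℂ) * w‖ + ‖(kk κ : ℂ) * w‖ := by
    have := norm_add_le (w' - (kk κ : ℂ) * w) ((kk κ : ℂ) * w)
    rwa [sub_add_cancel] at this
  have h4 : κ * δ * ‖(h : ℂ) - (kk κ : ℂ) * w‖ ≤ κ * δ * (h + kk κ * ρ) :=
    mul_le_mul_of_nonneg_left h2 (by positivity)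
  linarith

/-- discs with centres: the step of the absolute displacement -/
theorem step_disc {δ R R' : ℝ} {c m c' w w' : ℂ} (hw : ‖w - c‖ ≤ R)
    (hd : ‖w' - (kk κ : ℂ) * w - m‖ ≤ δ) (hc : c' = (kk κ : ℂ) * c + m)
    (hR : kk κ * R + δ ≤ R') : ‖w' - c'‖ ≤ R' := by
  have hk := kk_pos κ
  have h1 : ‖(kk κ : ℂ) * (w - c)‖ ≤ kk κ * R := by
    rw [norm_mul, Complex.norm_real, Real.norm_of_nonneg hk.le]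
    exact mul_le_mul_of_nonneg_left hw hk.le
  have h2 : w' - c' = (w' - (kk κ : ℂ) * w - m) + (kk κ : ℂ) * (w - c) := by rw [hc]; ring
  rw [h2]
  exact (norm_add_le _ _).trans (by linarith)

/-- **`NodesOK` from fixed state sets.** -/
theorem nodesOK_of_W (he : 0 < e) (hκ : 0 < κ) {d : FarN e κ θ} {D : LamN} {L : ℕ} (hL : 0 < L)
    {η : ℝ} {W : ℕ → Set ℂ} {A x0 B1 : ℝ} (hA : 0 ≤ A) (hx0 : 0 ≤ x0) (hB1 : B1 < x0 + 2)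
    (hX : ∀ τ, ‖d.X 0 τ‖ ≤ ‖Xr κ (2 * A * Real.sinh κ ^ 2) (Real.exp (-(2 * κ * (x0 + 1)))) τ‖)
    (mem : ((η : ℂ) * I) ∈ D.DN) (strip : |κ * η| < Real.pi / 2)
    (w0 : ∀ x : ℂ, ‖x‖ ≤ 1 → 1 - (Hh κ : ℂ) ^ 2 *
      exp (-(2 * ((LA e κ : ℂ) + lF (D.l0 ((η : ℂ) * I)) (D.r0 ((η : ℂ) * I) * x))) / e) *
        (1 - tanh (κ * ((η : ℂ) * I)) ^ 2) ∈ slitPlane)
    (hSH : ∀ x : ℂ, ‖x‖ ≤ 1 → Pool.Agent.helper12.RS.SH e κ (tanh (κ * ((η : ℂ) * I))) (D.l0 ((η : ℂ) * I))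
      (D.r0 ((η : ℂ) * I) * x) ∈ slitPlane)
    (first : YF e κ θ (W 0) (D.l0 ((η : ℂ) * I)) (D.r0 ((η : ℂ) * I)) (D.M0 ((η : ℂ) * I))
      (fun x => S0 e κ (tanh (κ * ((η : ℂ) * I))) (D.l0 ((η : ℂ) * I)) (D.r0 ((η : ℂ) * I) * x))
      (D.l 0 ((η : ℂ) * I)) (D.r 0 ((η : ℂ) * I)))
    (lt1 : ∀ n, n < L → ∀ w ∈ W n, ‖w‖ < 1)
    (ent : ∀ w ∈ W L, ‖w‖ < Real.exp (-(2 * κ * x0)))
    (hΩ : ∀ Q : ℂ, Real.cosh κ < Q.re → om κ Q ∈ W L → tQ κ Q ∈ d.Ω 0)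
    (dom : ∀ n, n < L → ∀ Q : ℂ, Real.cosh κ < Q.re → om κ Q ∈ W n →
      (((η : ℂ) * I), (e : ℂ) * (1 - (Q ^ 2)⁻¹)) ∈ D.DY n)
    (mid : ∀ n, n + 1 < L → ∀ Q : ℂ, Real.cosh κ < Q.re → om κ Q ∈ W n →
      ∀ y : ℂ, y = (e : ℂ) * (1 - (Q ^ 2)⁻¹) →
      YF e κ θ (W (n + 1)) (D.l n ((η : ℂ) * I) y) (D.r n ((η : ℂ) * I) y)
        (D.M n ((η : ℂ) * I) y)
        (fun x => Sn e κ y (D.l n ((η : ℂ) * I) y) (D.r n ((η : ℂ) * I) y * x))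
        (D.l (n + 1) ((η : ℂ) * I)) (D.r (n + 1) ((η : ℂ) * I)))
    (last : ∀ Q : ℂ, Real.cosh κ < Q.re → om κ Q ∈ W (L - 1) →
      ∀ y : ℂ, y = (e : ℂ) * (1 - (Q ^ 2)⁻¹) →
      YL' e κ θ A x0 B1 (W L) (D.l (L - 1) ((η : ℂ) * I) y) (D.r (L - 1) ((η : ℂ) * I) y)
        (D.M (L - 1) ((η : ℂ) * I) y)
        (fun x => Sn e κ y (D.l (L - 1) ((η : ℂ) * I) y) (D.r (L - 1) ((η : ℂ) * I) y * x))) :
    NodesOK d D L ((η : ℂ) * I) (BW e κ W) := by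
  refine ⟨mem, ?_, ?_, w0, hSH, ?_, ?_, ?_⟩
  · rintro n hn y ⟨Q, hQ, rfl, hw⟩
    exact dom n hn Q hQ hw
  · have h2 : (((η : ℂ) * I)).im = η := by simp
    rw [h2, lt_div_iff₀ (by positivity)]
    rw [abs_mul, abs_of_pos hκ] at strip
    have h3 : |η| * (2 * κ) = 2 * (κ * |η|) := by ring
    rw [h3]
    linarith
  · intro x hx
    have hn := first.nc x hx
    have hS := slitPlane_ne_zero hn.S
    have h4 := first.mem x hx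
    have h6 := re_of_om hκ (first.ne x hx) (lt1 0 hL _ h4)
    refine ⟨hn, h6, ⟨_, h6, ?_, h4⟩, fun x' hx' => first.close x x' hx hx'⟩
    rw [half_sq hS]
  · rintro n hn y ⟨Q, hQ, hy, hw⟩ x hx
    have hY := mid n hn Q hQ hw y hy
    have hnc := hY.nc x hx
    have hS := slitPlane_ne_zero hnc.S
    have h4 : om κ (Sn e κ y (D.l n ((η : ℂ) * I) y) (D.r n ((η : ℂ) * I) y * x) ^
        ((1 / 2 : ℝ) : ℂ)) ∈ W (n + 1) := hY.mem x hx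
    have h6 := re_of_om hκ (hY.ne x hx) (lt1 (n + 1) hn _ h4)
    refine ⟨hnc, h6, ⟨_, h6, ?_, h4⟩, fun x' hx' => hY.close x x' hx hx'⟩
    rw [half_sq hS]
  · rintro y ⟨Q, hQ, hy, hw⟩ x hx
    have hY := last Q hQ hw y hy
    have hnc := hY.nc x hx
    have hS := slitPlane_ne_zero hnc.S
    obtain ⟨m, rfl⟩ : ∃ m, L = m + 1 := ⟨L - 1, by omega⟩
    have h4 : om κ (Sn e κ y (D.l m ((η : ℂ) * I) y) (D.r m ((η : ℂ) * I) y * x) ^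
        ((1 / 2 : ℝ) : ℂ)) ∈ W (m + 1) := hY.mem x hx
    have h5 := ent _ h4
    have h51 : Real.exp (-(2 * κ * x0)) ≤ 1 := by
      rw [Real.exp_le_one_iff]
      have : 0 ≤ 2 * κ * x0 := by positivity
      linarith
    have h6 := re_of_om hκ (hY.ne x hx) (h5.trans_le h51)
    obtain ⟨c1, c2, c3⟩ := hY.close x hx _ _ _ _ _ rfl rfl rfl rfl rfl
    exact nL_of he hκ hA hx0 hB1 hX hnc rfl h6 (entry_om hκ (hY.ne x hx) hx0 h5)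
      (hΩ _ h6 h4) rfl rfl rfl rfl c1 c2 c3

end Pool.Agent.helper63.RG
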