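import Pool.Agent.helper63.RG.MaxP

/-!
# From the lower half of a circle to the disc
-/

namespace Pool.Agent.helper63.RG

open Complex Set Metric ComplexConjugate
open Pool.Agent.helper31.IA (Z get)
open Pool.Agent.helper31.IX (Op Asserts)

/-- the inputs: real numbers, then the variable, then the disc numbers -/
noncomputable def inp (pre : List ℝ) (z : ℂ) (post : List ℂ) : List ℂ :=
  pre.map (fun t : ℝ => (t : ℂ)) ++ z :: post

theorem inp_conj (pre : List ℝ) (z : ℂ) (post : List ℂ) :
    (inp pre z post).map conj = inp pre (conj z) (post.map conj) := by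
  unfold inp
  rw [List.map_append, List.map_map, List.map_cons]
  congr 1
  apply List.map_congr_left
  intro a _
  simp

theorem inp_at (pre : List ℝ) (z : ℂ) (post : List ℂ) :
    at' (pre.map (fun t : ℝ => fun _ : ℂ => (t : ℂ)) ++ (fun w => w) :: post.map (fun t _ => t)) z =
      inp pre z post := by
  unfold at' inp
  rw [List.map_append, List.map_map, List.map_cons, List.map_map]
  congr 2
  simp [Function.comp_def]

/-- **From the lower half of the circle to the disc.** -/
theorem disc_of_circle {P2 : List Op} (hg : guard [] [] P2 = true) (hr : realP P2 = true)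
    {c R : ℝ} (hR : 0 < R) {pre : List ℝ} {nd : ℕ}
    (h : ∀ z : ℂ, ‖z - (c : ℂ)‖ = R → z.im ≤ 0 → ∀ post : List ℂ, post.length = nd →
      (∀ x ∈ post, ‖x‖ ≤ 1) → Asserts P2 (inp pre z post)) :
    ∀ z : ℂ, ‖z - (c : ℂ)‖ ≤ R → ∀ post : List ℂ, post.length = nd → (∀ x ∈ post, ‖x‖ ≤ 1) →
      Asserts P2 (inp pre z post) := by
  intro z hz post hp hp1
  have hcirc : ∀ w : ℂ, ‖w - (c : ℂ)‖ = R → Asserts P2 (inp pre w post) := by
    intro w hw
    rcases le_total w.im 0 with h1 | h1
    · exact h w hw h1 post hp hp1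
    · refine asserts_conj P2 _ hr ?_
      rw [inp_conj]
      refine h _ ?_ ?_ _ (by simpa using hp) ?_
      · have : conj w - (c : ℂ) = conj (w - (c : ℂ)) := by simp
        rw [this, Complex.norm_conj]; exact hw
      · simpa using h1
      · intro x hx
        obtain ⟨y, hy, rfl⟩ := List.mem_map.1 hx
        rw [Complex.norm_conj]
        exact hp1 y hy
  have hne : (ball (c : ℂ) R).Nonempty := ⟨c, mem_ball_self hR⟩
  have hcl : closure (ball (c : ℂ) R) = closedBall (c : ℂ) R := closure_ball _ hR.ne'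
  have hfr : frontier (ball (c : ℂ) R) = sphere (c : ℂ) R := frontier_ball _ hR.ne'
  have key := maxP (U := ball (c : ℂ) R) isBounded_ball hne P2 [] []
    (pre.map (fun t : ℝ => fun _ : ℂ => (t : ℂ)) ++ (fun w => w) :: post.map (fun t _ => t))
    ⟨?_, by simp, by simp⟩ hg ?_ z ?_
  · rwa [inp_at] at key
  · intro f hf
    rw [List.mem_append, List.mem_cons] at hf
    rcases hf with hf | rfl | hf
    · obtain ⟨t, -, rfl⟩ := List.mem_map.1 hf
      exact diffContOnCl_const
    · exact differentiable_id.diffContOnCl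
    · obtain ⟨t, -, rfl⟩ := List.mem_map.1 hf
      exact diffContOnCl_const
  · intro w hw
    rw [inp_at]
    rw [hfr, mem_sphere, dist_eq_norm] at hw
    exact hcirc w hw
  · rw [hcl, mem_closedBall, dist_eq_norm]
    exact hz

/-- **The two charts of the lower half of a circle.** -/
theorem circ_param {K c R : ℝ} (hK : 0 < K) (hR : 0 < R) {z : ℂ} (hz : ‖z - (c : ℂ)‖ = R)
    (him : z.im ≤ 0) :
    (∃ η : ℝ, 0 ≤ η ∧ η ≤ 1 ∧ z = ((K : ℂ) * ((c + R : ℝ) : ℂ) + I * (η : ℂ) * ((c - R : ℝ) : ℂ)) /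
      ((K : ℂ) + I * (η : ℂ))) ∨
    (∃ g : ℝ, 0 ≤ g ∧ g ≤ 1 ∧ z = ((K : ℂ) * (g : ℂ) * ((c + R : ℝ) : ℂ) + I * ((c - R : ℝ) : ℂ)) /
      ((K : ℂ) * (g : ℂ) + I)) := by
  obtain ⟨x, hx⟩ : ∃ x, x = z.re - c := ⟨_, rfl⟩
  obtain ⟨y, hy⟩ : ∃ y, y = -z.im := ⟨_, rfl⟩
  have hy0 : 0 ≤ y := by rw [hy]; linarith
  have hzz : z = (c : ℂ) + (x : ℂ) - I * (y : ℂ) := by
    apply Complex.ext
    · simp [hx]
    · simp [hy]
  have hn : x ^ 2 + y ^ 2 = R ^ 2 := by
    have h1 : ‖z - (c : ℂ)‖ ^ 2 = x ^ 2 + y ^ 2 := by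
      rw [← Complex.normSq_eq_norm_sq, Complex.normSq_apply]
      simp [hx, hy]
      ring
    rw [← h1, hz]
  have hxR : 0 ≤ x + R := by
    have : x ^ 2 ≤ R ^ 2 := by nlinarith
    have := abs_le_of_sq_le_sq' this hR.le
    linarith [this.1]
  rcases hxR.eq_or_lt with h0 | h0
  · right
    refine ⟨0, le_rfl, zero_le_one, ?_⟩
    have hx' : x = -R := by linarith
    have hy' : y = 0 := by
      rw [hx'] at hn
      have : y ^ 2 = 0 := by nlinarith
      exact pow_eq_zero_iff (two_ne_zero) |>.1 this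
    rw [hzz, hx', hy']
    push_cast
    have hd : (K : ℂ) * 0 + I ≠ 0 := by
      rw [mul_zero, zero_add]; exact I_ne_zero
    rw [eq_div_iff hd]
    ring
  · obtain ⟨t, ht⟩ : ∃ t, t = y / (x + R) := ⟨_, rfl⟩
    have ht0 : 0 ≤ t := by rw [ht]; positivity
    have h1 : t * (x + R) = y := by rw [ht]; field_simp
    have h2 : y * t = R - x := by
      have : (y * t) * (x + R) = (R - x) * (x + R) := by
        rw [mul_assoc, h1]; nlinarith
      exact mul_right_cancel₀ h0.ne' this
    have h1c : (t : ℂ) * ((x : ℂ) + (R : ℂ)) = (y : ℂ) := by exact_mod_cast h1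
    have h2c : (y : ℂ) * (t : ℂ) = (R : ℂ) - (x : ℂ) := by exact_mod_cast h2
    have hI : I * I = -1 := I_mul_I
    have key : (z - (c : ℂ)) * (1 + I * (t : ℂ)) = (R : ℂ) * (1 - I * (t : ℂ)) := by
      rw [hzz]
      linear_combination I * h1c + h2c - (t : ℂ) * (y : ℂ) * hI
    rcases le_or_gt (K * t) 1 with h3 | h3
    · left
      refine ⟨K * t, by positivity, h3, ?_⟩
      have hd : (K : ℂ) + I * ((K * t : ℝ) : ℂ) ≠ 0 := by
        intro h
        have := congrArg Complex.re h
        simp at this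
        exact hK.ne' this
      rw [eq_div_iff hd]
      push_cast
      linear_combination (K : ℂ) * key
    · right
      have ht1 : 0 < K * t := by linarith
      refine ⟨(K * t)⁻¹, by positivity, inv_le_one_of_one_le₀ h3.le, ?_⟩
      have ht2 : t ≠ 0 := by
        rintro rfl
        simp at ht1
      have hd : (K : ℂ) * (((K * t)⁻¹ : ℝ) : ℂ) + I ≠ 0 := by
        intro h
        have := congrArg Complex.im h
        simp at this
      rw [eq_div_iff hd]
      have e1 : (K : ℂ) * (((K * t)⁻¹ : ℝ) : ℂ) * (t : ℂ) = 1 := by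
        have : K * (K * t)⁻¹ * t = 1 := by field_simp
        exact_mod_cast this
      have htc : (t : ℂ) ≠ 0 := by exact_mod_cast ht2
      apply mul_right_cancel₀ htc
      push_cast at e1 ⊢
      linear_combination key + (z - ((c : ℂ) + (R : ℂ))) * e1

end Pool.Agent.helper63.RG
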