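import Pool.Agent.helper63.RG.Circ

/-!
# From the two lower arcs to a region

The region is `‖z - c‖ ≤ R`, `‖g z‖ ≤ 1`.
-/

namespace Pool.Agent.helper63.RG

open Complex Set Metric ComplexConjugate
open Pool.Agent.helper31.IA (Z get)
open Pool.Agent.helper31.IX (Op Asserts)

/-- **From the two arcs to the region.** -/
theorem region_of_arcs {P2 : List Op} (hg : guard [] [] P2 = true) (hr : realP P2 = true)
    {c R : ℝ} {g : ℂ → ℂ} (hgc : ContinuousOn g (closedBall (c : ℂ) R))
    (hgs : ∀ z, ‖g (conj z)‖ = ‖g z‖) {pre : List ℝ} {nd : ℕ}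
    (h1 : ∀ z : ℂ, ‖z - (c : ℂ)‖ = R → ‖g z‖ ≤ 1 → z.im ≤ 0 → ∀ post : List ℂ,
      post.length = nd → (∀ x ∈ post, ‖x‖ ≤ 1) → Asserts P2 (inp pre z post))
    (h2 : ∀ z : ℂ, ‖z - (c : ℂ)‖ ≤ R → ‖g z‖ = 1 → z.im ≤ 0 → ∀ post : List ℂ,
      post.length = nd → (∀ x ∈ post, ‖x‖ ≤ 1) → Asserts P2 (inp pre z post)) :
    ∀ z : ℂ, ‖z - (c : ℂ)‖ ≤ R → ‖g z‖ ≤ 1 → ∀ post : List ℂ, post.length = nd →
      (∀ x ∈ post, ‖x‖ ≤ 1) → Asserts P2 (inp pre z post) := by
  intro z hz hgz post hp hp1
  have hconj : ∀ w : ℂ, ‖conj w - (c : ℂ)‖ = ‖w - (c : ℂ)‖ := by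
    intro w
    have : conj w - (c : ℂ) = conj (w - (c : ℂ)) := by simp
    rw [this, Complex.norm_conj]
  have hcirc : ∀ w : ℂ, ‖w - (c : ℂ)‖ ≤ R → ‖g w‖ ≤ 1 → (‖w - (c : ℂ)‖ = R ∨ ‖g w‖ = 1) →
      Asserts P2 (inp pre w post) := by
    intro w hw hgw hor
    rcases le_total w.im 0 with h | h
    · rcases hor with h3 | h3
      · exact h1 w h3 hgw h post hp hp1
      · exact h2 w hw h3 h post hp hp1
    · refine asserts_conj P2 _ hr ?_
      rw [inp_conj]
      have hpc : ∀ x ∈ post.map conj, ‖x‖ ≤ 1 := by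
        intro x hx
        obtain ⟨y, hy, rfl⟩ := List.mem_map.1 hx
        rw [Complex.norm_conj]
        exact hp1 y hy
      have him : (conj w).im ≤ 0 := by simpa using h
      rcases hor with h3 | h3
      · exact h1 _ (by rw [hconj]; exact h3) (by rw [hgs]; exact hgw) him _ (by simpa using hp) hpc
      · exact h2 _ (by rw [hconj]; exact hw) (by rw [hgs]; exact h3) him _ (by simpa using hp) hpc
  by_cases hor : ‖z - (c : ℂ)‖ = R ∨ ‖g z‖ = 1
  · exact hcirc z hz hgz hor
  · push Not at hor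
    have hz' : ‖z - (c : ℂ)‖ < R := lt_of_le_of_ne hz hor.1
    have hgz' : ‖g z‖ < 1 := lt_of_le_of_ne hgz hor.2
    set U : Set ℂ := {w | ‖w - (c : ℂ)‖ < R ∧ ‖g w‖ < 1} with hU
    have hUb : Bornology.IsBounded U := by
      refine (isBounded_ball (x := (c : ℂ)) (r := R)).subset ?_
      intro w hw
      rw [mem_ball, dist_eq_norm]
      exact hw.1
    have hne : U.Nonempty := ⟨z, hz', hgz'⟩
    have hcl : ∀ w ∈ closure U, ‖w - (c : ℂ)‖ ≤ R ∧ ‖g w‖ ≤ 1 := by
      intro w hw
      have hw1 : w ∈ closedBall (c : ℂ) R := by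
        refine closure_minimal ?_ isClosed_closedBall hw
        intro v hv
        rw [mem_closedBall, dist_eq_norm]
        exact hv.1.le
      refine ⟨by rw [mem_closedBall, dist_eq_norm] at hw1; exact hw1, ?_⟩
      have hcw : ContinuousWithinAt g U w := (hgc w hw1).mono (by
        intro v hv
        rw [mem_closedBall, dist_eq_norm]
        exact hv.1.le)
      have h3 := hcw.norm
      have : (nhdsWithin w U).NeBot := mem_closure_iff_nhdsWithin_neBot.1 hw
      refine le_of_tendsto h3 ?_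
      filter_upwards [self_mem_nhdsWithin] with v hv
      exact hv.2.le
    have hfr : ∀ w ∈ frontier U, ‖w - (c : ℂ)‖ = R ∨ ‖g w‖ = 1 := by
      intro w hw
      by_contra hcon
      push Not at hcon
      have hwc := hcl w (frontier_subset_closure hw)
      have h3 : ‖w - (c : ℂ)‖ < R := lt_of_le_of_ne hwc.1 hcon.1
      have h4 : ‖g w‖ < 1 := lt_of_le_of_ne hwc.2 hcon.2
      have hmem : w ∈ interior U := by
        rw [mem_interior_iff_mem_nhds]
        have hb : ball (c : ℂ) R ∈ nhds w := by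
          refine isOpen_ball.mem_nhds ?_
          rw [mem_ball, dist_eq_norm]; exact h3
        have hca : ContinuousAt g w :=
          hgc.continuousAt (Filter.mem_of_superset hb ball_subset_closedBall)
        have h5 : ∀ᶠ v in nhds w, ‖g v‖ < 1 := hca.norm.eventually_lt_const h4
        filter_upwards [hb, h5] with v hv1 hv2
        rw [mem_ball, dist_eq_norm] at hv1
        exact ⟨hv1, hv2⟩
      exact hw.2 hmem
    have key := maxP (U := U) hUb hne P2 [] []
      (pre.map (fun t : ℝ => fun _ : ℂ => (t : ℂ)) ++ (fun w => w) :: post.map (fun t _ => t))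
      ⟨?_, by simp, by simp⟩ hg ?_ z (subset_closure ⟨hz', hgz'⟩)
    · rwa [inp_at] at key
    · intro f hf
      rw [List.mem_append, List.mem_cons] at hf
      rcases hf with hf | rfl | hf
      · obtain ⟨t, -, rfl⟩ := List.mem_map.1 hf
        exact diffContOnCl_const
      · exact differentiable_id.diffContOnCl
      · obtain ⟨t, -, rfl⟩ := List.mem_map.1 hf
        exact diffContOnCl_const
    · intro w hw
      rw [inp_at]
      have h3 := hcl w (frontier_subset_closure hw)
      exact hcirc w h3.1 h3.2 (hfr w hw)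

end Pool.Agent.helper63.RG
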